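import Pool.Agent.N798.S2.Stm
import Pool.Agent.H373R2.T7.Vau

set_option autoImplicit false

/-!
Project S2 (helper798), task LV (helper459): sums over primes with the weight of von Mangoldt, by
Vaughan's identity.
-/

namespace Pool.Agent.N459.S2

open Finset MeasureTheory Filter Topology
open scoped ENNReal
open Pool.Agent.H376R2.MR (er)
open Pool.Agent.N798.S2

theorem phE_norm {J : ℕ} (τ : ℝ) (g : Fin J → ℝ) (n : ℕ) : ‖phE τ g n‖ = 1 := by
  unfold phE er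
  exact Complex.norm_exp_ofReal_mul_I _

/-- the trivial bound -/
theorem triv {J : ℕ} (τ : ℝ) (g : Fin J → ℝ) {N N' : ℕ} (hN : 2 ≤ N) (hN' : N' ≤ 2 * N)
    (h : N < 1024) (K : ℕ) :
    ‖∑ n ∈ Ioc N N', ((ArithmeticFunction.vonMangoldt n : ℝ) : ℂ) * phE τ g n‖ ≤
      (2048 * 1024 ^ K : ℝ) * N / (Real.log N) ^ K := by
  have hNr : (2 : ℝ) ≤ N := by exact_mod_cast hN
  have hN1 : (N : ℝ) ≤ 1024 := by exact_mod_cast h.le
  have hlog0 : 0 < Real.log N := Real.log_pos (by linarith)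
  have h1 : ‖∑ n ∈ Ioc N N', ((ArithmeticFunction.vonMangoldt n : ℝ) : ℂ) * phE τ g n‖ ≤
      ∑ _n ∈ Ioc N N', (2048 : ℝ) := by
    refine (norm_sum_le _ _).trans (sum_le_sum fun n hn => ?_)
    rw [mem_Ioc] at hn
    rw [norm_mul, phE_norm, mul_one, Complex.norm_real, Real.norm_eq_abs,
      abs_of_nonneg ArithmeticFunction.vonMangoldt_nonneg]
    refine ArithmeticFunction.vonMangoldt_le_log.trans ?_
    refine (Real.log_le_self (Nat.cast_nonneg n)).trans ?_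
    have h2 : n ≤ 2048 := by omega
    exact_mod_cast h2
  have h2 : ∑ _n ∈ Ioc N N', (2048 : ℝ) ≤ 2048 * N := by
    rw [sum_const, Nat.card_Ioc, nsmul_eq_mul, mul_comm]
    refine mul_le_mul_of_nonneg_left ?_ (by norm_num)
    have h3 : N' - N ≤ N := by omega
    exact_mod_cast h3
  have h3 : (Real.log N) ^ K ≤ 1024 ^ K :=
    pow_le_pow_left₀ hlog0.le ((Real.log_le_self (Nat.cast_nonneg N)).trans hN1) K
  refine (h1.trans h2).trans ?_
  rw [le_div_iff₀ (by positivity)]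
  calc 2048 * (N : ℝ) * Real.log N ^ K ≤ 2048 * (N : ℝ) * 1024 ^ K :=
        mul_le_mul_of_nonneg_left h3 (by positivity)
    _ = 2048 * 1024 ^ K * N := by ring

/-- the parameter -/
theorem exists_U {N : ℕ} (h : 1024 ≤ N) : ∃ U : ℕ, 1 ≤ U ∧ (N : ℝ) ^ (1 / 10 : ℝ) ≤ U ∧
    (U : ℝ) ≤ (N : ℝ) ^ (1 / 5 : ℝ) ∧ U * U ≤ N := by
  have hNr : (1024 : ℝ) ≤ N := by exact_mod_cast h
  have hN0 : (0 : ℝ) ≤ N := by linarith
  obtain ⟨x, hx⟩ : ∃ x : ℝ, x = (N : ℝ) ^ (1 / 10 : ℝ) := ⟨_, rfl⟩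
  have hx2 : 2 ≤ x := by
    have h1 : ((1024 : ℝ)) ^ (1 / 10 : ℝ) = 2 := by
      have h2 : (1024 : ℝ) = 2 ^ (10 : ℕ) := by norm_num
      have h3 : (1 / 10 : ℝ) = ((10 : ℕ) : ℝ)⁻¹ := by norm_num
      rw [h2, h3, Real.pow_rpow_inv_natCast (by norm_num) (by norm_num)]
    rw [hx, ← h1]
    exact Real.rpow_le_rpow (by norm_num) hNr (by norm_num)
  have hx5 : (N : ℝ) ^ (1 / 5 : ℝ) = x ^ 2 := by
    rw [hx, ← Real.rpow_natCast, ← Real.rpow_mul hN0]
    norm_num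
  have hx10 : (N : ℝ) = x ^ 10 := by
    rw [hx, ← Real.rpow_natCast, ← Real.rpow_mul hN0]
    norm_num
  refine ⟨⌈x⌉₊, Nat.one_le_ceil_iff.2 (by linarith), by rw [← hx]; exact Nat.le_ceil x, ?_, ?_⟩
  · rw [hx5]
    have h1 : (⌈x⌉₊ : ℝ) < x + 1 := Nat.ceil_lt_add_one (by linarith)
    nlinarith
  · have h1 : (⌈x⌉₊ : ℝ) < x + 1 := Nat.ceil_lt_add_one (by linarith)
    have h2 : (⌈x⌉₊ : ℝ) ≤ x ^ 2 := by nlinarith
    have h3 : (⌈x⌉₊ : ℝ) * ⌈x⌉₊ ≤ x ^ 4 := by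
      calc (⌈x⌉₊ : ℝ) * ⌈x⌉₊ ≤ x ^ 2 * x ^ 2 :=
            mul_le_mul h2 h2 (Nat.cast_nonneg _) (by positivity)
        _ = x ^ 4 := by ring
    have h4 : x ^ 4 ≤ x ^ 10 := pow_le_pow_right₀ (by linarith) (by norm_num)
    have h5 : ((⌈x⌉₊ * ⌈x⌉₊ : ℕ) : ℝ) ≤ (N : ℝ) := by
      push_cast
      rw [hx10]
      exact h3.trans h4
    exact_mod_cast h5

theorem log_bd {N : ℕ} (h : 1024 ≤ N) : 1 ≤ Real.log N ∧ 1 + Real.log (4 * N) ≤ 4 * Real.log N := by
  have hNr : (1024 : ℝ) ≤ N := by exact_mod_cast h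
  have h1 : Real.log 1024 ≤ Real.log N := Real.log_le_log (by norm_num) hNr
  have h2 : Real.log 1024 = 10 * Real.log 2 := by
    have h3 : (1024 : ℝ) = 2 ^ 10 := by norm_num
    rw [h3, Real.log_pow]
    norm_num
  have h3 : Real.log 4 = 2 * Real.log 2 := by
    have h3 : (4 : ℝ) = 2 ^ 2 := by norm_num
    rw [h3, Real.log_pow]
    norm_num
  have h4 := Real.log_two_gt_d9
  have h5 := Real.log_two_lt_d9
  refine ⟨by linarith, ?_⟩
  rw [Real.log_mul (by norm_num) (by positivity), h3]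
  linarith

/-- the sum of the bounds for the linear sums -/
theorem sum_Y {N U : ℕ} {C : ℝ} (hC : 0 ≤ C) (hN : 1024 ≤ N) (hU : 1 ≤ U) (hUN : U * U ≤ N) (K : ℕ) :
    ∑ m ∈ Icc 1 (U * U), C * ((N : ℝ) / m) / (Real.log N) ^ (K + 2) ≤
      2 * C * N / (Real.log N) ^ (K + 1) := by
  obtain ⟨hl1, -⟩ := log_bd hN
  have hl0 : 0 < Real.log N := by linarith
  have h1 : ∑ m ∈ Icc 1 (U * U), C * ((N : ℝ) / m) / (Real.log N) ^ (K + 2) =
      C * N / (Real.log N) ^ (K + 2) * ∑ m ∈ Icc 1 (U * U), ((m : ℝ))⁻¹ := by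
    rw [mul_sum]
    refine sum_congr rfl fun m _ => ?_
    rw [div_eq_mul_inv (N : ℝ) (m : ℝ)]
    ring
  have h2 : ∑ m ∈ Icc 1 (U * U), ((m : ℝ))⁻¹ ≤ 1 + Real.log ((U * U : ℕ) : ℝ) := by
    have h3 := harmonic_le_one_add_log (U * U)
    rw [harmonic_eq_sum_Icc] at h3
    push_cast at h3 ⊢
    exact h3
  have h3 : Real.log ((U * U : ℕ) : ℝ) ≤ Real.log N := by
    refine Real.log_le_log ?_ (by exact_mod_cast hUN)
    have h4 : 0 < U * U := Nat.mul_pos (by omega) (by omega)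
    exact_mod_cast h4
  rw [h1]
  calc C * N / (Real.log N) ^ (K + 2) * ∑ m ∈ Icc 1 (U * U), ((m : ℝ))⁻¹
      ≤ C * N / (Real.log N) ^ (K + 2) * (2 * Real.log N) := by
        refine mul_le_mul_of_nonneg_left ?_ (by positivity)
        linarith
    _ = 2 * C * N / (Real.log N) ^ (K + 1) := by
        rw [pow_succ _ (K + 1)]
        field_simp

theorem mono {a b x y : ℝ} (h : a ≤ b) (hx : 0 ≤ x) (hy : 0 ≤ y) : a * x / y ≤ b * x / y :=
  div_le_div_of_nonneg_right (mul_le_mul_of_nonneg_right h hx) hy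

/-- LV -/
theorem lv (h1 : S_TI) (h2 : S_TII) : S_LV := by
  intro J A K
  obtain ⟨K1, C1, hC1, hTII⟩ := h2 J A (K + 5)
  obtain ⟨K2, C2, hC2, hTI⟩ := h1 J A (K + 2)
  refine ⟨max K1 K2, 8192 * C1 + 24 * C2 + 2048 * 1024 ^ K, by positivity, ?_⟩
  intro N N' τ g hN hNN' hN' hτ hg hex
  by_cases hlarge : 1024 ≤ N
  · obtain ⟨U, hU1, hU2, hU3, hU4⟩ := exists_U hlarge
    obtain ⟨hl1, hl4⟩ := log_bd hlarge
    have hl0 : 0 < Real.log N := by linarith
    have hN0 : (0 : ℝ) ≤ N := Nat.cast_nonneg _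
    have hex1 : ∃ i, (Real.log N) ^ K1 ≤ |g i| / (N : ℝ) ^ ((i : ℕ) + 1) := by
      obtain ⟨i, hi⟩ := hex
      exact ⟨i, (pow_le_pow_right₀ hl1 (le_max_left _ _)).trans hi⟩
    have hex2 : ∃ i, (Real.log N) ^ K2 ≤ |g i| / (N : ℝ) ^ ((i : ℕ) + 1) := by
      obtain ⟨i, hi⟩ := hex
      exact ⟨i, (pow_le_pow_right₀ hl1 (le_max_right _ _)).trans hi⟩
    have key := Pool.Agent.H373R2.T7.vaughan_gen (phE τ g) N N' U (by omega) hNN' hN' hU1 hU4
      (fun m => C2 * ((N : ℝ) / m) / (Real.log N) ^ (K + 2)) (C1 * N / (Real.log N) ^ (K + 5))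
      (by positivity) (fun m => by positivity)
      (hTI N N' U τ g hN hNN' hN' hU1 hU3 hτ hg hex2)
      (hTII N N' U τ g hN hNN' hN' hU2 hg hex1)
    refine key.trans ?_
    have h0 : 0 ≤ 1 + Real.log (4 * N) := by
      have h3 : 0 ≤ Real.log (4 * N) := by
        refine Real.log_nonneg ?_
        have h4 : (1024 : ℝ) ≤ N := by exact_mod_cast hlarge
        linarith
      linarith
    have h3 : 8 * (1 + Real.log (4 * N)) ^ 5 * (C1 * N / (Real.log N) ^ (K + 5)) ≤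
        8192 * C1 * N / (Real.log N) ^ K := by
      calc 8 * (1 + Real.log (4 * N)) ^ 5 * (C1 * N / (Real.log N) ^ (K + 5))
          ≤ 8 * (4 * Real.log N) ^ 5 * (C1 * N / (Real.log N) ^ (K + 5)) := by
            gcongr
        _ = 8192 * C1 * N / (Real.log N) ^ K := by
            rw [pow_add _ K 5]
            field_simp
            ring
    have h4 : 3 * (1 + Real.log (4 * N)) *
        ∑ m ∈ Icc 1 (U * U), C2 * ((N : ℝ) / m) / (Real.log N) ^ (K + 2) ≤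
        24 * C2 * N / (Real.log N) ^ K := by
      calc 3 * (1 + Real.log (4 * N)) *
          ∑ m ∈ Icc 1 (U * U), C2 * ((N : ℝ) / m) / (Real.log N) ^ (K + 2)
          ≤ 3 * (4 * Real.log N) * (2 * C2 * N / (Real.log N) ^ (K + 1)) := by
            refine mul_le_mul ?_ (sum_Y hC2.le hlarge hU1 hU4 K) ?_ (by positivity)
            · linarith
            · exact sum_nonneg fun m _ => by positivity
        _ = 24 * C2 * N / (Real.log N) ^ K := by
            rw [pow_succ _ K]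
            field_simp
            ring
    refine (add_le_add h3 h4).trans ?_
    have h5 : 8192 * C1 * N / (Real.log N) ^ K + 24 * C2 * N / (Real.log N) ^ K =
        (8192 * C1 + 24 * C2) * N / (Real.log N) ^ K := by ring
    rw [h5]
    have h6 : (0 : ℝ) ≤ 2048 * 1024 ^ K := by positivity
    exact mono (by linarith) hN0 (by positivity)
  · refine (triv τ g hN hN' (by omega) K).trans ?_
    have hNr : (2 : ℝ) ≤ N := by exact_mod_cast hN
    have hlog0 : 0 < Real.log N := Real.log_pos (by linarith)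
    have h6 : 0 ≤ 8192 * C1 + 24 * C2 := by positivity
    exact mono (by linarith) (Nat.cast_nonneg _) (by positivity)

end Pool.Agent.N459.S2
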